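import Pool.Agent.Helper576.Neg

namespace Pool.Agent.Results.MP_0dd021_an.StepApprox

open MeasureTheory Filter Topology
open Pool.Agent.Helper576.LpDefs
open scoped ENNReal

/-- Sanity check: for `1 < p < ∞` every piecewise constant function is a multiplier
(M. Riesz, Stechkin). -/
theorem PCzero_subset_Mult {p : ℝ≥0∞} (h1 : 1 < p) (h2 : p < ∞) : PCzero ⊆ Mult p := by
  intro g hg
  obtain ⟨c, J, a, h⟩ := Pool.Agent.Helper576.LpMult.rep_PCzero hg
  have hgi : Integrable g haar := (Pool.Agent.Helper576.LpMult.integrable_stp c J a).congr (by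
    filter_upwards [h] with x hx
    exact hx.symm)
  have hp : 1 < p.toReal := by
    rw [← ENNReal.toReal_one]
    exact (ENNReal.toReal_lt_toReal ENNReal.one_ne_top h2.ne).mpr h1
  obtain ⟨C, hC, hs⟩ := Pool.Agent.Helper576.LpMult.MB_s0 hp
  refine ⟨hgi, ?_⟩
  have hd : Pool.Agent.Helper576.LpMult.MB p.toReal 1 (fun n : ℤ => if n = 0 then (1 : ℂ) else 0) := by
    apply Pool.Agent.Helper576.LpMult.MB_of_summable hp.le
    intro s
    have : ∀ n ∈ s, ‖(if n = 0 then (1 : ℂ) else 0)‖ = if n = 0 then 1 else 0 := by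
      intro n _
      split_ifs <;> simp
    rw [Finset.sum_congr rfl this, Finset.sum_ite_eq']
    split_ifs <;> norm_num
  have h3 : Pool.Agent.Helper576.LpMult.MB p.toReal (‖c‖ * 1 + ∑ t ∈ J, ‖a t‖ * C) (fourierCoeff g) := by
    have h4 := Pool.Agent.Helper576.LpMult.MB_sum hp.le J (fun t => ‖a t‖ * C)
      (fun t n => a t * (Pool.Agent.Helper576.LpMult.ee (-n) t
        * fourierCoeff Pool.Agent.Helper576.LpMult.s0 n))
      (fun t _ => by positivity)
      (fun t _ => (hs.mod (fun n => Pool.Agent.Helper576.LpMult.ee (-n) t) (fun m n => by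
        have : -(m - n) = (-m) - (-n) := by ring
        rw [this, Pool.Agent.Helper576.LpMult.ee_sub_left])
        (fun n => Pool.Agent.Helper576.LpMult.norm_ee _ _)).smul (by linarith) hC (a t))
    have h5 := Pool.Agent.Helper576.LpMult.MB.add hp.le (by positivity) (by positivity)
      (hd.smul (by linarith) zero_le_one c) h4
    have e : fourierCoeff g = fun n => c * (if n = 0 then 1 else 0)
        + ∑ t ∈ J, a t * (Pool.Agent.Helper576.LpMult.ee (-n) t
          * fourierCoeff Pool.Agent.Helper576.LpMult.s0 n) := by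
      rw [fourierCoeff_congr_ae h]
      ext n
      exact Pool.Agent.Helper576.LpMult.fc_stp c J a n
    rw [e]
    exact h5
  exact lt_of_le_of_lt (Pool.Agent.Helper576.LpMult.multNorm_le_of_MB h1.le h2.ne hgi
    (by positivity) h3) ENNReal.ofReal_lt_top

/-- For `p ∈ [1, ∞]`, every `f ∈ PC ∩ M_p` is a uniform limit of piecewise constant functions with
bounded `M_p` norms if and only if `1 < p < ∞`. -/
theorem result (p : ℝ≥0∞) (hp : 1 ≤ p) :
    (∀ f ∈ PC ∩ Mult p, ∃ g : ℕ → UnitAddCircle → ℂ,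
      (∀ n, g n ∈ PCzero) ∧
      (⨆ n, multNorm p (g n)) < ∞ ∧
      Tendsto (fun n => eLpNorm (g n - f) ∞ haar) atTop (𝓝 0))
    ↔ (1 < p ∧ p < ∞) := by
  constructor
  · intro h
    by_contra hcon
    have hp' : p = 1 ∨ p = ∞ := by
      by_contra hne
      push Not at hne
      exact hcon ⟨lt_of_le_of_ne hp (Ne.symm hne.1), lt_top_iff_ne_top.mpr hne.2⟩
    exact Pool.Agent.Helper576.LpMult.negative_final hp'
      (h _ ⟨Pool.Agent.Helper576.LpMult.ee_mem_PC, Pool.Agent.Helper576.LpMult.ee_mem_Mult hp'⟩)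
  · rintro ⟨h1, h2⟩ f ⟨hf, hfM⟩
    exact Pool.Agent.Helper576.LpMult.positive_final h1 h2 hf hfM

end Pool.Agent.Results.MP_0dd021_an.StepApprox
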